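import Pool.Agent.Work.MP_0fcc57_gt.Final
import Pool.Agent.Work.MP_0fcc57_gt.Stmt

/-!
# MP_0fcc57_gt, Q1: the answer is negative

A closed negatively curved Riemannian 3-manifold `N`, a closed negatively curved Riemannian
3-manifold `M` and a smooth harmonic homeomorphism `f : N → M` whose differential is singular
at a point.

Sketch: `M` is a closed hyperbolic 3-manifold with a large embedded ball, `N` is the same manifold
with the metric changed in the ball, and `f` is the identity outside of the ball. In polar
coordinates `(r, x, θ)` (`x` the cosine of the polar angle) of the ball the map is
`(r, x, θ) ↦ (V (r, x), x, θ)`, and the metric of `N` is diagonal with coefficients for which the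
two harmonic map equations can be solved explicitly.
-/

open Pool.Agent.Work.MP_0fcc57_gt in
/-- Closed negatively curved Riemannian 3-manifolds `N`, `M` and a smooth harmonic homeomorphism
`f` from `N` to `M` whose differential is not injective at some point. -/
theorem Pool.Agent.Results.MP_0fcc57_gt.SingularHarmonicHomeo.result :
    ∃ (N M : ClosedRiemannian 3) (f : N.carrier ≃ₜ M.carrier),
      N.NegCurved ∧ M.NegCurved ∧ SmoothMap (E := Fin 3 → ℝ) f ∧ N.Harmonic M f ∧
      ∃ p, N.SingularAt M f p :=
  statement_of counterexample
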